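import Pool.Agent.MP_c69980_ag.H4.SpecA

/-!
Hierarchies of nets, covering and packing in the plane.
-/

set_option autoImplicit false

noncomputable section

namespace Pool.Agent.MP_c69980_ag.H3

open H4 Metric Filter Topology MeasureTheory Set Real
open scoped ENNReal

lemma ff_aux (u : Finset ℂ) : ∀ ρ : ℂ → ℝ, (∀ e ∈ u, 0 < ρ e) → ∃ d : ℂ → ℝ,
    (∀ e ∈ u, 0 < d e ∧ d e ≤ ρ e) ∧
    (∀ s, 0 < s → ∀ e ∈ u, s ≤ ρ e → ∃ e' ∈ u, s ≤ d e' ∧ dist e e' ≤ s) ∧
    ∀ e ∈ u, ∀ e' ∈ u, e ≠ e' → min (d e) (d e') ≤ dist e e' := by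
  classical
  induction u using Finset.eraseInduction with
  | H u ih =>
  intro ρ hρ
  rcases u.eq_empty_or_nonempty with rfl | hne
  · exact ⟨ρ, by simp, by simp, by simp⟩
  obtain ⟨a, ha, hmax⟩ := u.exists_max_image ρ hne
  obtain ⟨d, h1, h2, h3⟩ := ih a ha (fun e => min (ρ e) (dist e a)) fun e he =>
    lt_min (hρ e (Finset.mem_of_mem_erase he)) (dist_pos.2 (Finset.ne_of_mem_erase he))
  have hd : ∀ e, e ≠ a → Function.update d a (ρ a) e = d e := fun e he =>
    Function.update_of_ne he _ _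
  have hda : Function.update d a (ρ a) a = ρ a := Function.update_self _ _ _
  refine ⟨Function.update d a (ρ a), fun e he => ?_, fun s hs e he hse => ?_,
    fun e he e' he' hne => ?_⟩
  · by_cases h : e = a
    · rw [h, hda]; exact ⟨hρ a ha, le_rfl⟩
    · rw [hd e h]
      have := h1 e (Finset.mem_erase.2 ⟨h, he⟩)
      exact ⟨this.1, this.2.trans (min_le_left _ _)⟩
  · rcases le_or_gt (dist e a) s with h | h
    · exact ⟨a, ha, by rw [hda]; exact hse.trans (hmax e he), h⟩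
    · have hea : e ≠ a := dist_pos.1 (hs.trans h)
      obtain ⟨e', he', p, q⟩ := h2 s hs e (Finset.mem_erase.2 ⟨hea, he⟩) (le_min hse h.le)
      exact ⟨e', Finset.mem_of_mem_erase he', by rw [hd e' (Finset.ne_of_mem_erase he')]; exact p,
        q⟩
  · by_cases h : e = a
    · have h' : e' ≠ a := fun q => hne (h.trans q.symm)
      rw [hd e' h', h, dist_comm]
      exact (min_le_right _ _).trans
        ((h1 e' (Finset.mem_erase.2 ⟨h', he'⟩)).2.trans (min_le_right _ _))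
    · by_cases h' : e' = a
      · rw [hd e h, h']
        exact (min_le_left _ _).trans
          ((h1 e (Finset.mem_erase.2 ⟨h, he⟩)).2.trans (min_le_right _ _))
      · rw [hd e h, hd e' h']
        exact h3 e (Finset.mem_erase.2 ⟨h, he⟩) e' (Finset.mem_erase.2 ⟨h', he'⟩) hne

theorem ff : FFStmt := by
  intro u L hL
  obtain ⟨d, h1, h2, h3⟩ := ff_aux u (fun _ => L) fun _ _ => hL
  refine ⟨d, h1, fun s hs hsL e he => ?_, h3⟩
  obtain ⟨e', he', p, q⟩ := h2 s hs e he hsL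
  exact ⟨e', he', p, by linarith⟩

lemma dist_aff (c a b : ℂ) {s : ℝ} (hs : 0 ≤ s) : dist (c + s * a) (c + s * b) = s * dist a b := by
  rw [dist_add_left, dist_eq_norm, dist_eq_norm, ← mul_sub, norm_mul, Complex.norm_real,
    Real.norm_of_nonneg hs]

theorem cover : CoverStmt := by
  classical
  intro Λ
  obtain ⟨t, ht, hf, hc⟩ := (isCompact_closedBall (0 : ℂ) Λ).finite_cover_balls one_pos
  refine ⟨hf.toFinset.card, fun c s hs => ⟨hf.toFinset.image fun w => c + s * w,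
    Finset.card_image_le, fun w hw => ?_, fun z hz => ?_⟩⟩
  · obtain ⟨x, hx, rfl⟩ := Finset.mem_image.1 hw
    have := dist_aff c x 0 hs.le
    rw [mul_zero, add_zero] at this
    rw [this, mul_comm]
    exact mul_le_mul_of_nonneg_right (ht (hf.mem_toFinset.1 hx)) hs.le
  · have hs' : (s : ℂ) ≠ 0 := by exact_mod_cast hs.ne'
    have e : z = c + s * ((z - c) / s) := by field_simp; ring
    have h0 : (z - c) / s ∈ closedBall (0 : ℂ) Λ := by
      have := dist_aff c ((z - c) / s) 0 hs.le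
      rw [mul_zero, add_zero, ← e] at this
      have h2 := mem_closedBall.1 hz
      rw [this, mul_comm] at h2
      exact le_of_mul_le_mul_right h2 hs
    obtain ⟨x, hx, hzx⟩ := mem_iUnion₂.1 (hc h0)
    refine mem_iUnion₂.2 ⟨c + s * x, Finset.mem_image_of_mem _ (hf.mem_toFinset.2 hx), ?_⟩
    rw [mem_ball, e, dist_aff _ _ _ hs.le]
    exact mul_lt_of_lt_one_right hs hzx

lemma pack (Λ : ℝ) : ∃ N : ℕ, ∀ (c : ℂ) (s : ℝ) (p : Finset ℂ), 0 < s →
    (∀ x ∈ p, dist x c ≤ Λ * s) → (∀ x ∈ p, ∀ y ∈ p, x ≠ y → 2 * s ≤ dist x y) → p.card ≤ N := by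
  obtain ⟨N, hN⟩ := cover Λ
  refine ⟨N, fun c s p hs h1 h2 => ?_⟩
  obtain ⟨t, ht, -, hc⟩ := hN c s hs
  have : ∀ x, ∃ w, x ∈ p → w ∈ t ∧ dist x w < s := by
    intro x
    by_cases hx : x ∈ p
    · obtain ⟨w, hw, h⟩ := mem_iUnion₂.1 (hc (h1 x hx))
      exact ⟨w, fun _ => ⟨hw, h⟩⟩
    · exact ⟨0, fun h => absurd h hx⟩
  choose g hg using this
  refine (Finset.card_le_card_of_injOn g (fun x hx => (hg x hx).1) fun x hx y hy hxy => ?_).trans ht
  by_contra hne
  have a := (hg x hx).2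
  have b := (hg y hy).2
  have := dist_triangle_right x y (g y)
  rw [hxy] at a
  linarith [h2 x hx y hy hne]

/-- Two separated points of the set produce a net point of controlled level. -/
lemma net_pt {u : Finset ℂ} {L : ℝ} {d : ℂ → ℝ} (h : FF u L d) {s : ℝ} (hs : 0 < s) (hL : s ≤ L)
    {e e' : ℂ} (he : e ∈ u) (he' : e' ∈ u) (hd : 4 * s < dist e e') :
    ∃ f ∈ u, s ≤ d f ∧ d f ≤ dist e e' + 4 * s ∧ (dist e f ≤ 2 * s ∨ dist e' f ≤ 2 * s) := by
  obtain ⟨f, hf, a, b⟩ := h.2.1 s hs hL e he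
  obtain ⟨g, hg, a', b'⟩ := h.2.1 s hs hL e' he'
  have t1 := dist_triangle4 e f g e'
  have t2 := dist_triangle4 f e e' g
  rw [dist_comm g e'] at t1
  rw [dist_comm f e] at t2
  have hne : f ≠ g := dist_pos.1 (by linarith)
  have := h.2.2 f hf g hg hne
  rcases le_total (d f) (d g) with q | q
  · rw [min_eq_left q] at this
    exact ⟨f, hf, a, by linarith, Or.inl b⟩
  · rw [min_eq_right q] at this
    exact ⟨g, hg, a', by linarith, Or.inr b'⟩

theorem pair : PairStmt := by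
  classical
  intro Λ hΛ
  have Λ0 : 0 < Λ := by linarith
  obtain ⟨N, hN⟩ := pack (64 * Λ ^ 4)
  obtain ⟨J, hJ⟩ := pow_unbounded_of_one_lt (16 * Λ ^ 2) (one_lt_two (α := ℝ))
  refine ⟨N * (J + 1), fun u L d p hF hp => ?_⟩
  set q : ℂ → Finset (ℂ × ℤ) := fun f => p.filter fun a => (2 : ℝ) ^ a.2 ≤ 8 * Λ * d f ∧
    d f ≤ 2 * Λ * (2 : ℝ) ^ a.2 ∧ dist a.1 f ≤ 2 * Λ * (2 : ℝ) ^ a.2 with hq
  have h1 : p ⊆ u.biUnion q := by
    intro a ha
    obtain ⟨a1, a2, e, he, a3, a4⟩ := hp a ha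
    set x : ℝ := (2 : ℝ) ^ a.2 with hx
    have x0 : 0 < x := by positivity
    set s := x / (8 * Λ) with hs
    have s0 : 0 < s := by positivity
    have sx : x = 8 * Λ * s := by rw [hs]; field_simp
    have b1 : 8 * s ≤ d a.1 := le_of_mul_le_mul_left (by linarith) Λ0
    have b2 : 8 * s ≤ dist a.1 e := le_of_mul_le_mul_left (by linarith) Λ0
    have b3 : 8 * s ≤ Λ * x := by nlinarith [mul_pos Λ0 s0]
    obtain ⟨f, hf, c1, c2, c3⟩ := net_pt hF s0 (by linarith [(hF.1 _ a1).2]) a1 he (by linarith)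
    refine Finset.mem_biUnion.2 ⟨f, hf, Finset.mem_filter.2 ⟨ha, ?_, by linarith, ?_⟩⟩
    · rw [← hx, sx]; gcongr
    · have := dist_triangle a.1 e f
      rcases c3 with c3 | c3 <;> linarith
  refine (Finset.card_le_card h1).trans ?_
  rw [mul_comm]
  refine Finset.card_biUnion_le_card_mul _ _ _ fun f hf => ?_
  set D := d f with hD
  have D0 : 0 < D := (hF.1 f hf).1
  obtain ⟨n, hn1, hn2⟩ := exists_mem_Ico_zpow (x := D / (2 * Λ)) (by positivity)
    (one_lt_two (α := ℝ))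
  set E := u.filter fun e => D / (2 * Λ ^ 2) ≤ d e ∧ dist e f ≤ 16 * Λ ^ 2 * D with hE
  have hEc : E.card ≤ N := by
    refine hN f (D / (4 * Λ ^ 2)) E (by positivity) (fun x hx => ?_) fun x hx y hy hne => ?_
    · refine (Finset.mem_filter.1 hx).2.2.trans (le_of_eq ?_)
      field_simp; ring
    · obtain ⟨x1, x2, -⟩ := Finset.mem_filter.1 hx
      obtain ⟨y1, y2, -⟩ := Finset.mem_filter.1 hy
      refine le_trans (le_of_eq ?_) ((le_min x2 y2).trans (hF.2.2 x x1 y y1 hne))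
      field_simp; ring
  have h2 : q f ⊆ E ×ˢ Finset.Ico n (n + 1 + J) := by
    intro a ha
    obtain ⟨ha, c1, c2, c3⟩ := Finset.mem_filter.1 ha
    obtain ⟨a1, a2, -⟩ := hp a ha
    refine Finset.mem_product.2 ⟨Finset.mem_filter.2 ⟨a1, ?_, ?_⟩, Finset.mem_Ico.2 ⟨?_, ?_⟩⟩
    · rw [div_le_iff₀ (by positivity)]
      nlinarith [mul_le_mul_of_nonneg_left a2 Λ0.le]
    · nlinarith [mul_le_mul_of_nonneg_left c1 Λ0.le]
    · refine (zpow_le_zpow_iff_right₀ (one_lt_two (α := ℝ))).1 (hn1.trans ?_)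
      rw [div_le_iff₀ (by positivity)]
      linarith
    · refine (zpow_lt_zpow_iff_right₀ (one_lt_two (α := ℝ))).1 ?_
      rw [zpow_add₀ two_ne_zero, zpow_natCast]
      rw [div_lt_iff₀ (by positivity)] at hn2
      have p0 : (0 : ℝ) < 2 ^ (n + 1) := by positivity
      have := mul_lt_mul_of_pos_left hn2 (by positivity : 0 < 8 * Λ)
      nlinarith [mul_lt_mul_of_pos_left hJ p0]
  refine (Finset.card_le_card h2).trans ?_
  rw [Finset.card_product, Int.card_Ico]
  exact Nat.mul_le_mul hEc (by omega)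

end Pool.Agent.MP_c69980_ag.H3
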