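import Pool.Agent.MP_c69980_ag.H3.Rad
import Pool.Agent.MP_c69980_ag.H3.Net

/-!
Points with two heavy balls are rare, and the selection of a good point.
-/

set_option autoImplicit false

noncomputable section

namespace Pool.Agent.MP_c69980_ag.H3

open H4 MvPolynomial Metric Filter Topology MeasureTheory Set Real
open scoped ENNReal

theorem heavy : HeavyStmt := by
  classical
  intro t ε η ht hε hη
  have t0 : 0 < t := by linarith
  obtain ⟨N, hN⟩ := cover (120 * t ^ 3)
  set M := N * ε / η + 1 with hM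
  have M0 : 0 < M := by positivity
  refine ⟨M, fun ν hν hm => ?_⟩
  obtain ⟨u, hu1, -, hu3⟩ := ends ν M (3 * t) 1 (Den_mono hν (ball_subset_ball (by linarith)))
    M0 one_pos
  obtain ⟨d, hF⟩ := ff u 1 one_pos
  have hc : ∀ f, ∃ v : Finset ℂ, f ∈ u → v.card ≤ N ∧
      closedBall f (120 * t ^ 3 * (d f / (6 * t))) ⊆ ⋃ w ∈ v, ball w (d f / (6 * t)) := by
    intro f
    by_cases hf : f ∈ u
    · have := (hF.1 f hf).1
      obtain ⟨v, a, -, b⟩ := hN f (d f / (6 * t)) (by positivity)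
      exact ⟨v, fun _ => ⟨a, b⟩⟩
    · exact ⟨∅, fun h => absurd h hf⟩
  choose v hv using hc
  have hsub : {z | z ∈ ball 0 1 ∧ Two ν t M z (rad ν ε z)} ⊆ ⋃ f ∈ u,
      ⋃ w ∈ (v f).filter (fun w => mu ν (ball w (d f / (6 * t))) ≤ ENNReal.ofReal ε),
        ball w (d f / (6 * t)) := by
    rintro z ⟨hz, a, ha, b, hb, hab, ma, mb⟩
    have z1 : ‖z‖ < 1 := mem_ball_zero_iff.1 hz
    obtain ⟨r0, r2, rm⟩ := radius ν ε _ 2 z hν hε two_pos (by linarith)
      (hm.trans (mu_mono ν (ball_subset_ball' (by rw [dist_comm, dist_zero_right]; linarith))))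
    set r := rad ν ε z with hr
    set s := r / (10 * t) with hs
    have s0 : 0 < s := by positivity
    have rs : r = 10 * t * s := by rw [hs]; field_simp
    have e1 : r / t = 10 * s := by rw [hs]; field_simp
    have e2 : r / (100 * t) = s / 10 := by rw [hs]; field_simp; ring
    have s1 : s ≤ t * s := by nlinarith
    have s2 : 10 * s ≤ r * t := by nlinarith
    have key : ∀ a ∈ ball z (r * t), ENNReal.ofReal M < mu ν (ball a (r / (100 * t))) →
        ∃ e ∈ u, dist a e ≤ s := by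
      intro a ha ma
      have a1 : ‖a‖ ≤ 3 * t := by
        have h1 := mem_ball.1 ha
        have h2 := norm_le_norm_add_norm_sub' a z
        rw [dist_eq_norm] at h1
        nlinarith
      rw [e2] at ma
      obtain ⟨e, he, -, h⟩ := hu3 a a1 (ma.le.trans (mu_mono ν (ball_subset_ball (by linarith))))
      have := (radius ν M _ (s / 10) a hν M0 (by positivity) (by linarith) ma.le).2.1
      exact ⟨e, he, by linarith⟩
    obtain ⟨e, he, ae⟩ := key a ha ma
    obtain ⟨e', he', be⟩ := key b hb mb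
    have ha' := mem_ball.1 ha
    have hb' := mem_ball.1 hb
    have t1 := dist_triangle4 a e e' b
    have t2 := dist_triangle4 e a b e'
    have t3 := dist_triangle_right a b z
    rw [dist_comm e' b] at t1
    rw [dist_comm e a] at t2
    obtain ⟨f, hf, c1, c2, c3⟩ := net_pt hF s0 (by linarith) he he' (by linarith)
    have hzf : dist z f ≤ 2 * (r * t) := by
      have t4 := dist_triangle4 z a e f
      have t5 := dist_triangle4 z b e' f
      rw [dist_comm z a] at t4
      rw [dist_comm z b] at t5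
      rcases c3 with c3 | c3 <;> linarith
    have hz2 : z ∈ closedBall f (120 * t ^ 3 * (d f / (6 * t))) := by
      have : 120 * t ^ 3 * (d f / (6 * t)) = 20 * t ^ 2 * d f := by field_simp; ring
      rw [mem_closedBall, this]
      refine hzf.trans ?_
      rw [rs]
      nlinarith [mul_le_mul_of_nonneg_left c1 (by positivity : 0 ≤ 20 * t ^ 2)]
    obtain ⟨w, hw, hzw⟩ := mem_iUnion₂.1 ((hv f hf).2 hz2)
    refine mem_iUnion₂.2 ⟨f, hf, mem_iUnion₂.2 ⟨w, Finset.mem_filter.2 ⟨hw, ?_⟩, hzw⟩⟩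
    rw [← rm]
    refine mu_mono ν (ball_subset_ball' ?_)
    have h1 := mem_ball.1 hzw
    have h2 : d f / (6 * t) ≤ r / 2 := by
      rw [div_le_iff₀ (by positivity)]
      linarith
    rw [dist_comm]
    linarith
  refine (mu_mono ν hsub).trans ?_
  rw [mu_eq]
  refine (measure_biUnion_finset_le _ _).trans ?_
  have h1 : ∀ f ∈ u, me ν (⋃ w ∈ (v f).filter
      (fun w => mu ν (ball w (d f / (6 * t))) ≤ ENNReal.ofReal ε), ball w (d f / (6 * t))) ≤
      ENNReal.ofReal η * ENNReal.ofReal M := by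
    intro f hf
    refine (measure_biUnion_finset_le _ _).trans ((Finset.sum_le_card_nsmul _ _
      (ENNReal.ofReal ε) fun w hw => ?_).trans ?_)
    · rw [← mu_eq]; exact (Finset.mem_filter.1 hw).2
    · rw [nsmul_eq_mul, ← ENNReal.ofReal_mul hη.le, ← ENNReal.ofReal_natCast,
        ← ENNReal.ofReal_mul (by positivity)]
      refine ENNReal.ofReal_le_ofReal ?_
      have h2 : (((v f).filter fun w => mu ν (ball w (d f / (6 * t))) ≤
          ENNReal.ofReal ε).card : ℝ) ≤ N := by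
        exact_mod_cast (Finset.card_filter_le _ _).trans (hv f hf).1
      have h3 : η * M = N * ε + η := by rw [hM]; field_simp
      nlinarith
  refine (Finset.sum_le_card_nsmul _ _ _ h1).trans ?_
  rw [nsmul_eq_mul, mul_left_comm]
  exact mul_le_mul_right (hu1.trans (mu_mono ν (ball_subset_ball (by linarith)))) _

lemma pick (μ : Measure ℂ) (S : Set ℂ) (B : ℕ → Set ℂ) (h0 : μ S ≠ 0) (h1 : μ S ≠ ∞)
    (hB : ∀ t, μ (B t) ≤ ENNReal.ofReal ((1 / 2) ^ t / 4) * μ S) : ∃ z ∈ S, ∀ t, z ∉ B t := by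
  by_contra hc
  push Not at hc
  have h2 : μ S ≤ ∑' t, ENNReal.ofReal ((1 / 2) ^ t / 4) * μ S :=
    (measure_mono fun z hz => mem_iUnion.2 (hc z hz)).trans
      ((measure_iUnion_le _).trans (ENNReal.tsum_le_tsum hB))
  rw [ENNReal.tsum_mul_right, ← ENNReal.ofReal_tsum_of_nonneg (fun _ => by positivity)
    (summable_geometric_two.div_const 4), tsum_div_const, tsum_geometric_two] at h2
  have h3 : ENNReal.ofReal (2 / 4) * μ S < 1 * μ S :=
    ENNReal.mul_lt_mul_left h0 h1 (ENNReal.ofReal_lt_one.2 (by norm_num))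
  rw [one_mul] at h3
  exact absurd h2 (not_le.2 h3)

lemma absorb {a b c : ℝ≥0∞} {x Λ : ℝ} (hx : 0 < x) (h1 : a ≤ ENNReal.ofReal (x / max Λ 1) * b)
    (h2 : b ≤ ENNReal.ofReal Λ * c) : a ≤ ENNReal.ofReal x * c := by
  have p : 0 < max Λ 1 := by positivity
  refine h1.trans ((mul_le_mul_right (h2.trans (mul_le_mul_left
    (ENNReal.ofReal_le_ofReal (le_max_left Λ 1)) c)) _).trans (le_of_eq ?_))
  rw [← mul_assoc, ← ENNReal.ofReal_mul (by positivity), div_mul_cancel₀ _ p.ne']

theorem duval (hL : LightStmt) (hI : LimStmt) (hS : ScaleStmt) (hQ : LapQStmt) : DuvalStmt := by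
  intro n F R S G A d a ε c hG hA hGA hε hc hR hF hΛ
  obtain ⟨ε₀, p0, hL⟩ := hL n
  obtain ⟨ε₁, p1, hI⟩ := hI n
  set δ := min ε (min ε₀ ε₁) with hδ
  have δ0 : 0 < δ := lt_min hε (lt_min p0 p1)
  choose Λ hΛ using hΛ
  have hD : ∀ k, Den (ball 0 (R k)) (lam (F k)) := fun k => (hQ n _ _ isOpen_ball (hF k).1).2.1
  have hm : ∀ k, ENNReal.ofReal δ ≤ mu (lam (F k)) (S k) := fun k =>
    (ENNReal.ofReal_le_ofReal (min_le_left _ _)).trans (hF k).2.2.2.1
  have hm1 : ∀ k, ENNReal.ofReal δ ≤ mu (lam (F k)) (ball 0 1) := fun k =>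
    (hm k).trans (mu_mono _ (hF k).2.2.1)
  obtain ⟨τ, τ0, hτ⟩ := hL δ ((1 / 4) / max (Λ 500) 1) δ0
    ((min_le_right _ _).trans (min_le_left _ _)) (by positivity)
  have hM : ∀ t : ℕ, ∃ M : ℝ, 1 ≤ t → ∀ᶠ k in atTop,
      mu (lam (F k)) {z | z ∈ ball 0 1 ∧ Two (lam (F k)) t M z (rad (lam (F k)) δ z)} ≤
        ENNReal.ofReal ((1 / 2) ^ t / 4) * mu (lam (F k)) (S k) := by
    intro t
    by_cases ht : 1 ≤ t
    · obtain ⟨M, hM⟩ := heavy t δ (((1 / 2) ^ t / 4) / max (Λ (5 * t)) 1) (by exact_mod_cast ht)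
        δ0 (by positivity)
      refine ⟨M, fun _ => ?_⟩
      filter_upwards [hΛ (5 * t), hR.eventually_ge_atTop (10 * t)] with k h1 h2
      refine absorb (by positivity) (hM _ (Den_mono (hD k) (ball_subset_ball h2)) (hm1 k)) ?_
      exact_mod_cast h1
    · exact ⟨0, fun h => absurd h ht⟩
  choose M hM using hM
  have hz : ∀ᶠ k in atTop, 3 < R k ∧ ∃ z ∈ S k, τ ≤ lam (F k) z * rad (lam (F k)) δ z ^ 2 ∧
      ∀ t : ℕ, 1 ≤ t →
        mu (lam (F k)) {z | z ∈ ball 0 1 ∧ Two (lam (F k)) t (M t) z (rad (lam (F k)) δ z)} ≤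
          ENNReal.ofReal ((1 / 2) ^ t / 4) * mu (lam (F k)) (S k) →
        ¬Two (lam (F k)) t (M t) z (rad (lam (F k)) δ z) := by
    filter_upwards [hΛ 500, hR.eventually_ge_atTop 1000] with k h1 h2
    refine ⟨by linarith, ?_⟩
    have hb : ball (0 : ℂ) 1000 ⊆ ball 0 (R k) := ball_subset_ball h2
    have h3 := absorb (by norm_num) (hτ (F k) ⟨(hF k).1.1.mono hb, fun z hz => (hF k).1.2 z (hb hz)⟩
      (hm1 k)) (by exact_mod_cast h1)
    obtain ⟨z, hz, hzB⟩ := pick (me (lam (F k))) (S k) (fun t => {z |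
      (t = 0 ∧ z ∈ ball 0 1 ∧ lam (F k) z * rad (lam (F k)) δ z ^ 2 < τ) ∨ (1 ≤ t ∧
        mu (lam (F k)) {z | z ∈ ball 0 1 ∧ Two (lam (F k)) t (M t) z (rad (lam (F k)) δ z)} ≤
          ENNReal.ofReal ((1 / 2) ^ t / 4) * mu (lam (F k)) (S k) ∧
        z ∈ ball 0 1 ∧ Two (lam (F k)) t (M t) z (rad (lam (F k)) δ z))})
      (by rw [← mu_eq]; exact ((ENNReal.ofReal_pos.2 δ0).trans_le (hm k)).ne')
      (by
        rw [← mu_eq]
        exact ne_top_of_le_ne_top (mu_fin (hD k) (by rw [norm_zero]; linarith))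
          (mu_mono _ (hF k).2.2.1))
      (by
        intro t
        rw [← mu_eq, ← mu_eq]
        rcases Nat.eq_zero_or_pos t with rfl | ht
        · refine (mu_mono _ fun z hz => ?_).trans (h3.trans (le_of_eq (by norm_num)))
          rcases hz with hz | hz
          · exact hz.2
          · exact absurd hz.1 (by norm_num)
        · by_cases h4 : mu (lam (F k))
              {z | z ∈ ball 0 1 ∧ Two (lam (F k)) t (M t) z (rad (lam (F k)) δ z)} ≤
                ENNReal.ofReal ((1 / 2) ^ t / 4) * mu (lam (F k)) (S k)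
          · refine (mu_mono _ fun z hz => ?_).trans h4
            rcases hz with hz | hz
            · exact absurd hz.1 ht.ne'
            · exact hz.2.2
          · refine (mu_mono _ (T := ∅) fun z hz => ?_).trans (by rw [mu_eq]; simp)
            rcases hz with hz | hz
            · exact absurd hz.1 ht.ne'
            · exact h4 hz.2.1)
    have hz1 := (hF k).2.2.1 hz
    exact ⟨z, hz, not_lt.1 fun h => hzB 0 (Or.inl ⟨rfl, hz1, h⟩),
      fun t ht h4 h5 => hzB t (Or.inr ⟨ht, h4, hz1, h5⟩)⟩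
  obtain ⟨k₀, hk₀⟩ := eventually_atTop.1 hz
  have hz := fun k => hk₀ (k + k₀) (Nat.le_add_left _ _)
  choose hR3 z hzS hzτ hzT using hz
  set r : ℕ → ℝ := fun k => rad (lam (F (k + k₀))) δ (z k) with hr
  have z1 : ∀ k, ‖z k‖ < 1 := fun k => mem_ball_zero_iff.1 ((hF _).2.2.1 (hzS k))
  have hrad : ∀ k, 0 < r k ∧ r k ≤ 2 ∧
      mu (lam (F (k + k₀))) (ball (z k) (r k)) = ENNReal.ofReal δ := fun k =>
    radius _ δ _ 2 (z k) (hD _) δ0 two_pos (by linarith [z1 k, hR3 k]) ((hm1 _).trans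
      (mu_mono _ (ball_subset_ball' (by rw [dist_comm, dist_zero_right]; linarith [z1 k]))))
  have hin : ∀ k, ∀ w ∈ ball (0 : ℂ) ((R (k + k₀) - 1) / 2),
      z k + r k * w ∈ ball (0 : ℂ) (R (k + k₀)) := by
    intro k w hw
    have h1 := mem_ball_zero_iff.1 hw
    have h2 := norm_add_le (z k) (r k * w)
    rw [norm_mul, Complex.norm_real, Real.norm_of_nonneg (hrad k).1.le] at h2
    have h3 := mul_le_mul_of_nonneg_right (hrad k).2.1 (norm_nonneg w)
    exact mem_ball_zero_iff.2 (by linarith [z1 k])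
  have hmu : ∀ k (b : ℂ) (s : ℝ), mu (lam fun w => F (k + k₀) (z k + r k * w)) (ball b s) =
      mu (lam (F (k + k₀))) (ball (z k + r k * b) (r k * s)) := by
    intro k b s
    obtain ⟨-, h1, h2⟩ := hS n (F (k + k₀)) (z k) (r k) (hrad k).1
    rw [← h1, h2]
  have hT := tendsto_add_atTop_nat k₀
  obtain ⟨f, f1, f2, f3, f4⟩ := hI (fun k w => F (k + k₀) (z k + r k * w))
    (fun k => (R (k + k₀) - 1) / 2) G A d a τ c hG hA hGA τ0 hc
    ((tendsto_atTop_add_const_right _ (-1) (hR.comp hT)).atTop_div_const two_pos)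
    (fun k => ⟨⟨(hF _).1.1.comp (by fun_prop) (hin k), fun w hw => (hF _).1.2 _ (hin k w hw)⟩,
      fun w hw => (hF _).2.1 _ (hin k w hw), by
        rw [hmu, mul_zero, add_zero, mul_one, (hrad k).2.2]
        exact ENNReal.ofReal_le_ofReal ((min_le_right _ _).trans (min_le_right _ _)), by
        rw [(hS n (F (k + k₀)) (z k) (r k) (hrad k).1).1, mul_zero, add_zero, mul_comm]
        exact hzτ k, by
        simp only [mul_zero, add_zero]
        exact (hF _).2.2.2.2 _ (hzS k)⟩)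
    (fun t ht => ⟨M t, (hT.eventually (hM t ht)).mono fun k hk => by
      rintro ⟨x, hx, y, hy, hxy, mx, my⟩
      have r0 := (hrad k).1
      have hb : ∀ x ∈ ball (0 : ℂ) (1 * t), z k + r k * x ∈ ball (z k) (r k * t) := by
        intro x hx
        have := dist_aff (z k) x 0 r0.le
        rw [mul_zero, add_zero] at this
        rw [mem_ball, this]
        exact mul_lt_mul_of_pos_left (by simpa using hx) r0
      rw [hmu, mul_one_div] at mx my
      refine hzT k t ht hk ⟨_, hb x hx, _, hb y hy, ?_, mx, my⟩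
      rw [dist_aff _ _ _ r0.le, div_eq_mul_one_div]
      exact mul_le_mul_of_nonneg_left hxy r0.le⟩)
  exact ⟨f, f1, f2, fun P e hP h => f3 P e hP fun k w hw => h _ _ (hin k w hw), f4⟩

end Pool.Agent.MP_c69980_ag.H3
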