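import Pool.Agent.MP_c69980_ag.H4.SpecA

/-!
The mass radius, and disjoint families of balls of equal mass.
-/

set_option autoImplicit false

noncomputable section

namespace Pool.Agent.MP_c69980_ag.H3

open H4 Metric Filter Topology MeasureTheory Set Real
open scoped ENNReal

/-- The measure with density `ν`. -/
def me (ν : ℂ → ℝ) : Measure ℂ := volume.withDensity fun z => ENNReal.ofReal (ν z)

lemma mu_eq (ν : ℂ → ℝ) (S : Set ℂ) : mu ν S = me ν S := (withDensity_apply' _ S).symm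

lemma mu_mono (ν : ℂ → ℝ) {S T : Set ℂ} (h : S ⊆ T) : mu ν S ≤ mu ν T := by
  rw [mu_eq, mu_eq]; exact measure_mono h

lemma Den_mono {O O' : Set ℂ} {ν : ℂ → ℝ} (h : Den O ν) (H : O' ⊆ O) : Den O' ν :=
  ⟨h.1.mono H, fun z hz => h.2 z (H hz)⟩

lemma mu_bound {O : Set ℂ} {ν : ℂ → ℝ} (h : Den O ν) {K : Set ℂ} (hK : IsCompact K)
    (H : K ⊆ O) : ∃ A : ℝ, 0 < A ∧ ∀ S ⊆ K, MeasurableSet S →
      mu ν S ≤ ENNReal.ofReal A * volume S := by
  obtain ⟨A, hA⟩ := hK.bddAbove_image (h.1.mono H)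
  refine ⟨max A 1, by positivity, fun S hS hm => ?_⟩
  rw [← setLIntegral_const]
  exact setLIntegral_mono' hm fun z hz =>
    ENNReal.ofReal_le_ofReal ((hA ⟨z, hS hz, rfl⟩).trans (le_max_left _ _))

lemma mu_fin {R s : ℝ} {ν : ℂ → ℝ} {z : ℂ} (h : Den (ball 0 R) ν) (H : ‖z‖ + s < R) :
    mu ν (ball z s) ≠ ∞ := by
  obtain ⟨A, -, hA⟩ := mu_bound h (isCompact_closedBall z s)
    (closedBall_subset_ball' (by rw [dist_zero_right]; linarith))
  exact ((hA _ ball_subset_closedBall measurableSet_ball).trans_lt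
    (ENNReal.mul_lt_top ENNReal.ofReal_lt_top measure_ball_lt_top)).ne

lemma me_closedBall (ν : ℂ → ℝ) (z : ℂ) (r : ℝ) : me ν (closedBall z r) ≤ me ν (ball z r) := by
  rw [← ball_union_sphere]
  refine (measure_union_le _ _).trans ?_
  have : me ν (sphere z r) = 0 :=
    withDensity_absolutelyContinuous volume _ (Measure.addHaar_sphere volume z r)
  rw [this, add_zero]

theorem radius : RadiusStmt := by
  intro ν ε R s z hν hε hs hR hm
  have hb : BddBelow {s | 0 < s ∧ ENNReal.ofReal ε ≤ mu ν (ball z s)} :=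
    ⟨0, fun x hx => hx.1.le⟩
  have hne : {s | 0 < s ∧ ENNReal.ofReal ε ≤ mu ν (ball z s)}.Nonempty := ⟨s, hs, hm⟩
  have h1 : rad ν ε z ≤ s := csInf_le hb ⟨hs, hm⟩
  have h2 : ∀ r > rad ν ε z, ENNReal.ofReal ε ≤ me ν (ball z r) := by
    intro r hr
    obtain ⟨x, hx, hxr⟩ := exists_lt_of_csInf_lt hne hr
    rw [← mu_eq]
    exact hx.2.trans (mu_mono ν (ball_subset_ball hxr.le))
  have h3 : ENNReal.ofReal ε ≤ mu ν (ball z (rad ν ε z)) := by
    rw [mu_eq]
    refine le_trans ?_ (me_closedBall ν z _)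
    rw [← biInter_gt_ball]
    refine ge_of_tendsto (tendsto_measure_biInter_gt (s := fun r => ball z r)
      (fun r _ => measurableSet_ball.nullMeasurableSet) (fun i j _ h => ball_subset_ball h)
      ⟨(s + (R - ‖z‖)) / 2, by linarith, ?_⟩) (eventually_mem_nhdsWithin.mono h2)
    rw [← mu_eq]
    exact mu_fin hν (by linarith)
  have h4 : 0 < rad ν ε z := by
    by_contra h
    rw [ball_eq_empty.2 (not_lt.1 h), mu_eq, measure_empty] at h3
    exact absurd (ENNReal.ofReal_pos.2 hε) (not_lt.2 h3)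
  refine ⟨h4, h1, le_antisymm ?_ h3⟩
  have h5 : ball z (rad ν ε z) = ⋃ n : ℕ, ball z (rad ν ε z - 1 / ((n : ℝ) + 1)) := by
    refine Subset.antisymm (fun w hw => ?_) (iUnion_subset fun n => ball_subset_ball ?_)
    · obtain ⟨n, hn⟩ := exists_nat_one_div_lt (sub_pos.2 (mem_ball.1 hw))
      exact mem_iUnion.2 ⟨n, mem_ball.2 (by linarith)⟩
    · have : (0 : ℝ) < 1 / ((n : ℝ) + 1) := by positivity
      linarith
  rw [h5, mu_eq, Monotone.measure_iUnion]
  · refine iSup_le fun n => ?_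
    have hp : (0 : ℝ) < 1 / ((n : ℝ) + 1) := by positivity
    rcases le_or_gt (rad ν ε z - 1 / ((n : ℝ) + 1)) 0 with h | h
    · rw [ball_eq_empty.2 h, measure_empty]; exact zero_le
    · by_contra hc
      have : rad ν ε z ≤ rad ν ε z - 1 / ((n : ℝ) + 1) :=
        csInf_le hb ⟨h, by rw [mu_eq]; exact (not_le.1 hc).le⟩
      linarith
  · intro i j hij
    refine ball_subset_ball ?_
    have := Nat.one_div_le_one_div (α := ℝ) hij
    linarith

theorem ends : EndsStmt := by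
  intro ν ε R s₀ hν hε hs
  set t : Set ℂ := {z | ‖z‖ ≤ R ∧ ENNReal.ofReal ε ≤ mu ν (ball z s₀)} with ht
  have hr : ∀ z ∈ t, 0 < rad ν ε z ∧ rad ν ε z ≤ s₀ ∧
      mu ν (ball z (rad ν ε z)) = ENNReal.ofReal ε :=
    fun z hz => radius ν ε _ s₀ z hν hε hs (by linarith [hz.1]) hz.2
  have hsub : ∀ z ∈ t, ball z (rad ν ε z) ⊆ ball 0 (R + s₀) := fun z hz =>
    ball_subset_ball' (by rw [dist_zero_right]; linarith [hz.1, (hr z hz).2.1])
  obtain ⟨A, hA0, hA⟩ := mu_bound hν (isCompact_closedBall 0 (R + s₀))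
    (closedBall_subset_ball (by linarith))
  have hlow : ∀ z ∈ t, 1 / rad ν ε z ≤ A * π * s₀ / ε := by
    intro z hz
    obtain ⟨a, b, c⟩ := hr z hz
    have h := hA _ ((hsub z hz).trans ball_subset_closedBall) measurableSet_ball
    rw [c, Complex.volume_ball, ← ENNReal.ofReal_pow a.le, ← ENNReal.ofReal_coe_nnreal,
      ← ENNReal.ofReal_mul (by positivity), ← ENNReal.ofReal_mul hA0.le,
      ENNReal.ofReal_le_ofReal_iff (by positivity), NNReal.coe_real_pi] at h
    rw [div_le_div_iff₀ a hε]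
    have : A * π * (rad ν ε z * rad ν ε z) ≤ A * π * (s₀ * rad ν ε z) := by gcongr
    nlinarith
  obtain ⟨u, hut, hd, hu⟩ := Vitali.exists_disjoint_subfamily_covering_enlargement
    (fun z => ball z (rad ν ε z)) t (fun z => 1 / rad ν ε z) 2 one_lt_two
    (fun z hz => (one_div_pos.2 (hr z hz).1).le) _ hlow
    (fun z hz => nonempty_ball.2 (hr z hz).1)
  have hcard : ∀ v : Finset ℂ, (v : Set ℂ) ⊆ u →
      v.card * ENNReal.ofReal ε ≤ mu ν (ball 0 (R + s₀)) := by
    intro v hv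
    have h1 := measure_biUnion_finset (μ := me ν) (hd.subset hv) fun b _ => measurableSet_ball
    have h2 : ∑ p ∈ v, me ν (ball p (rad ν ε p)) = v.card * ENNReal.ofReal ε := by
      rw [Finset.sum_congr rfl fun p hp => (mu_eq ν _).symm.trans (hr p (hut (hv hp))).2.2,
        Finset.sum_const, nsmul_eq_mul]
    rw [← h2, ← h1, mu_eq]
    exact measure_mono (iUnion₂_subset fun p hp => hsub p (hut (hv hp)))
  have hfin : u.Finite := by
    by_contra hinf
    have hf : mu ν (ball 0 (R + s₀)) ≠ ∞ := mu_fin hν (by rw [norm_zero]; linarith)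
    obtain ⟨n, hn⟩ := ENNReal.exists_nat_mul_gt (ENNReal.ofReal_pos.2 hε).ne' hf
    obtain ⟨v, hv, hvn⟩ := Set.Infinite.exists_subset_card_eq hinf n
    exact absurd (hcard v hv) (by rw [hvn]; exact not_le.2 hn)
  refine ⟨hfin.toFinset, hcard _ (by simp), fun e he => hut (hfin.mem_toFinset.1 he),
    fun z h1 h2 => ?_⟩
  obtain ⟨e, he, h3, h4⟩ := hu z ⟨h1, h2⟩
  have p1 := (hr z ⟨h1, h2⟩).1
  have p2 := (hr e (hut he)).1
  have h5 : rad ν ε e ≤ 2 * rad ν ε z := by
    rw [mul_one_div, div_le_div_iff₀ p1 p2] at h4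
    linarith
  exact ⟨e, hfin.mem_toFinset.2 he, h5,
    (dist_lt_add_of_nonempty_ball_inter_ball h3).le.trans (by linarith)⟩

end Pool.Agent.MP_c69980_ag.H3
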